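import Mathlib

set_option autoImplicit false
open MeasureTheory Filter Topology Set

namespace Pool.Agent.Y309.RS

noncomputable def sg (u : ℝ) : ℝ := (max (u + 1) 0) ^ 2

/-- the nonlinearity -/
noncomputable def gg (u : ℝ) : ℝ := (1 - sg u) * Real.exp (u - sg u)

/-- its derivative -/
noncomputable def gg' (u : ℝ) : ℝ :=
  ((1 - sg u) * (1 - 2 * max (u + 1) 0) - 2 * max (u + 1) 0) * Real.exp (u - sg u)

lemma sg_nonneg (u : ℝ) : 0 ≤ sg u := sq_nonneg _

lemma sg_of_le {u : ℝ} (h : u ≤ -1) : sg u = 0 := by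
  unfold sg
  rw [max_eq_right (by linarith)]
  norm_num

lemma sg_of_ge {u : ℝ} (h : -1 ≤ u) : sg u = (u + 1) ^ 2 := by
  unfold sg
  rw [max_eq_left (by linarith)]

lemma sg_lt_one {u : ℝ} (h : u < 0) : sg u < 1 := by
  rcases le_total u (-1) with h1 | h1
  · rw [sg_of_le h1]; norm_num
  · rw [sg_of_ge h1]; nlinarith

lemma hasDerivAt_sq_max (x : ℝ) : HasDerivAt (fun x : ℝ => (max x 0) ^ 2) (2 * max x 0) x := by
  rcases lt_trichotomy x 0 with h | h | h
  · rw [max_eq_right h.le, mul_zero]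
    refine (hasDerivAt_const x (0 : ℝ)).congr_of_eventuallyEq ?_
    filter_upwards [Iio_mem_nhds h] with y hy
    rw [max_eq_right (le_of_lt hy)]
    norm_num
  · subst h
    rw [max_self, mul_zero]
    rw [hasDerivAt_iff_isLittleO]
    simp only [sub_zero, max_self, smul_eq_mul, mul_zero]
    have h1 : (fun x : ℝ => max x 0 ^ 2 - 0 ^ 2) =O[𝓝 0] fun x : ℝ => x ^ 2 := by
      refine Asymptotics.IsBigO.of_bound 1 (Eventually.of_forall fun x => ?_)
      rw [one_mul, Real.norm_eq_abs, Real.norm_eq_abs, abs_of_nonneg (sq_nonneg x)]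
      rcases le_total x 0 with h | h
      · rw [max_eq_right h]; simp; positivity
      · rw [max_eq_left h]; simp
    exact h1.trans_isLittleO (Asymptotics.isLittleO_pow_id one_lt_two)
  · rw [max_eq_left h.le]
    have h1 : HasDerivAt (fun x : ℝ => x ^ 2) (2 * x) x := by
      simpa using hasDerivAt_pow 2 x
    refine h1.congr_of_eventuallyEq ?_
    filter_upwards [Ioi_mem_nhds h] with y hy
    rw [max_eq_left (le_of_lt hy)]

lemma hasDerivAt_sg (u : ℝ) : HasDerivAt sg (2 * max (u + 1) 0) u := by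
  have h1 : HasDerivAt (fun u : ℝ => u + 1) 1 u := (hasDerivAt_id u).add_const 1
  have h2 := HasDerivAt.comp u (hasDerivAt_sq_max (u + 1)) h1
  rw [mul_one] at h2
  exact h2

lemma hasDerivAt_gg (u : ℝ) : HasDerivAt gg (gg' u) u := by
  have h1 := hasDerivAt_sg u
  have h2 : HasDerivAt (fun u => 1 - sg u) (-(2 * max (u + 1) 0)) u := h1.const_sub 1
  have h3 : HasDerivAt (fun u => Real.exp (u - sg u))
      (Real.exp (u - sg u) * (1 - 2 * max (u + 1) 0)) u := ((hasDerivAt_id u).sub h1).exp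
  have h4 := h2.mul h3
  refine h4.congr_deriv ?_
  unfold gg'
  ring

lemma continuous_sg : Continuous sg := by
  unfold sg; fun_prop

lemma continuous_gg : Continuous gg := by
  unfold gg
  exact (continuous_const.sub continuous_sg).mul
    (Real.continuous_exp.comp (continuous_id.sub continuous_sg))

lemma continuous_gg' : Continuous gg' := by
  unfold gg'
  have := continuous_sg
  fun_prop

lemma deriv_gg : deriv gg = gg' := funext fun u => (hasDerivAt_gg u).deriv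

lemma contDiff_gg : ContDiff ℝ 1 gg := by
  rw [contDiff_one_iff_deriv]
  exact ⟨fun u => (hasDerivAt_gg u).differentiableAt, by rw [deriv_gg]; exact continuous_gg'⟩

lemma gg_of_le {u : ℝ} (h : u ≤ -1) : gg u = Real.exp u := by
  unfold gg
  rw [sg_of_le h]; simp

lemma gg'_of_le {u : ℝ} (h : u ≤ -1) : gg' u = Real.exp u := by
  unfold gg'
  rw [sg_of_le h, max_eq_right (by linarith)]; simp

lemma gg_pos {u : ℝ} (h : u < 0) : 0 < gg u := by
  unfold gg
  have := sg_lt_one h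
  exact mul_pos (by linarith) (Real.exp_pos _)

lemma gg_zero : gg 0 = 0 := by
  unfold gg
  rw [sg_of_ge (by norm_num)]
  norm_num

lemma gg_le_exp {u : ℝ} (h : u ≤ 0) : gg u ≤ Real.exp u := by
  unfold gg
  have h1 := sg_nonneg u
  have h2 : Real.exp (u - sg u) ≤ Real.exp u := Real.exp_le_exp.2 (by linarith)
  have h3 := Real.exp_pos (u - sg u)
  nlinarith

lemma gg_nonneg {u : ℝ} (h : u ≤ 0) : 0 ≤ gg u := by
  rcases h.lt_or_eq with h | h
  · exact (gg_pos h).le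
  · rw [h, gg_zero]

/-- `g' ≤ g` on the negative axis -/
lemma gg'_le_gg {u : ℝ} (h : u ≤ 0) : gg' u ≤ gg u := by
  unfold gg' gg
  refine mul_le_mul_of_nonneg_right ?_ (Real.exp_pos _).le
  have h1 : 0 ≤ max (u + 1) 0 := le_max_right _ _
  have h2 : sg u ≤ 1 := by
    rcases h.lt_or_eq with h | h
    · exact (sg_lt_one h).le
    · rw [h, sg_of_ge (by norm_num)]; norm_num
  nlinarith

lemma gg'_nonpos {u : ℝ} (h : -(1 / 2) ≤ u) (h0 : u ≤ 0) : gg' u ≤ 0 := by
  unfold gg'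
  refine mul_nonpos_of_nonpos_of_nonneg ?_ (Real.exp_pos _).le
  rw [sg_of_ge (by linarith), max_eq_left (by linarith)]
  nlinarith [mul_nonneg (mul_nonneg (sub_nonneg.2 h0) (sub_nonneg.2 h)) (sub_nonneg.2 h)]

lemma exp_bound {s : ℝ} (hs : 0 ≤ s) : Real.exp (s - 1 - s ^ 2) * ((s ^ 2 - s + 3) ^ 2 / 4) ≤ 1 := by
  have h1 : 1 + (s ^ 2 - s + 1) / 2 ≤ Real.exp ((s ^ 2 - s + 1) / 2) := by
    have := Real.add_one_le_exp ((s ^ 2 - s + 1) / 2)
    linarith
  have h0 : 0 < 1 + (s ^ 2 - s + 1) / 2 := by nlinarith [sq_nonneg (s - 1 / 2)]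
  have h2 : (1 + (s ^ 2 - s + 1) / 2) ^ 2 ≤ Real.exp (s ^ 2 - s + 1) := by
    have h3 : Real.exp (s ^ 2 - s + 1) = Real.exp ((s ^ 2 - s + 1) / 2) ^ 2 := by
      rw [← Real.exp_nat_mul]; congr 1; push_cast; ring
    rw [h3]
    exact pow_le_pow_left₀ h0.le h1 2
  have h4 : (s ^ 2 - s + 3) ^ 2 / 4 = (1 + (s ^ 2 - s + 1) / 2) ^ 2 := by ring
  rw [h4]
  calc Real.exp (s - 1 - s ^ 2) * (1 + (s ^ 2 - s + 1) / 2) ^ 2
      ≤ Real.exp (s - 1 - s ^ 2) * Real.exp (s ^ 2 - s + 1) :=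
        mul_le_mul_of_nonneg_left h2 (Real.exp_pos _).le
    _ = 1 := by rw [← Real.exp_add]; ring_nf; simp

lemma gg_bdd (u : ℝ) : |gg u| + |gg' u| ≤ 40 := by
  rcases le_total u (-1) with h | h
  · rw [gg_of_le h, gg'_of_le h, abs_of_pos (Real.exp_pos _)]
    have : Real.exp u ≤ 1 := Real.exp_le_one_iff.2 (by linarith)
    linarith
  · have h2 : max (u + 1) 0 = u + 1 := max_eq_left (by linarith)
    unfold gg gg'
    rw [sg_of_ge h, h2]
    set s := u + 1 with hs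
    have hs0 : 0 ≤ s := by linarith
    have hu : u - s ^ 2 = s - 1 - s ^ 2 := by rw [hs]; ring
    rw [hu]
    have hb := exp_bound hs0
    set e := Real.exp (s - 1 - s ^ 2) with he
    have he0 : 0 < e := Real.exp_pos _
    rw [abs_mul, abs_mul, abs_of_pos he0]
    have a1 : |1 - s ^ 2| ≤ 1 + s ^ 2 := by
      rw [abs_le]; constructor <;> nlinarith [sq_nonneg s]
    have a2 : |(1 - s ^ 2) * (1 - 2 * s) - 2 * s| ≤ (1 + s ^ 2) * (1 + 2 * s) + 2 * s := by
      rw [abs_le]; constructor <;> nlinarith [sq_nonneg s, mul_nonneg hs0 (sq_nonneg s)]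
    have a3 : (1 + s ^ 2) + ((1 + s ^ 2) * (1 + 2 * s) + 2 * s) ≤
        40 * ((s ^ 2 - s + 3) ^ 2 / 4) := by
      nlinarith [sq_nonneg (s ^ 2 - s), sq_nonneg (s - 1), sq_nonneg (s ^ 2 - 1),
        mul_nonneg hs0 (sq_nonneg (s - 1)), sq_nonneg (s ^ 2 - 2 * s), sq_nonneg s]
    calc |1 - s ^ 2| * e + |(1 - s ^ 2) * (1 - 2 * s) - 2 * s| * e
        ≤ (1 + s ^ 2) * e + ((1 + s ^ 2) * (1 + 2 * s) + 2 * s) * e := by gcongr
      _ = ((1 + s ^ 2) + ((1 + s ^ 2) * (1 + 2 * s) + 2 * s)) * e := by ring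
      _ ≤ (40 * ((s ^ 2 - s + 3) ^ 2 / 4)) * e := by gcongr
      _ = 40 * (e * ((s ^ 2 - s + 3) ^ 2 / 4)) := by ring
      _ ≤ 40 * 1 := by gcongr
      _ = 40 := by norm_num

end Pool.Agent.Y309.RS
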