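import Pool.Agent.Y309.RS.G

set_option autoImplicit false
open MeasureTheory Filter Topology Set

namespace Pool.Agent.Y309.RS

/-- the weight -/
noncomputable def ff (C k t : ℝ) : ℝ := C * Real.exp (k * t)

lemma hasDerivAt_ff (C k t : ℝ) : HasDerivAt (ff C k) (k * ff C k t) t := by
  have h1 : HasDerivAt (fun t : ℝ => k * t) k t := by
    simpa using (hasDerivAt_id t).const_mul k
  have h2 := h1.exp.const_mul C
  refine h2.congr_deriv ?_
  unfold ff
  ring

lemma deriv_ff (C k : ℝ) : deriv (ff C k) = fun t => k * ff C k t :=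
  funext fun t => (hasDerivAt_ff C k t).deriv

lemma ff_pos {C : ℝ} (hC : 0 < C) (k t : ℝ) : 0 < ff C k t := mul_pos hC (Real.exp_pos _)

lemma contDiff_ff (C k : ℝ) : ContDiff ℝ 1 (ff C k) := by
  unfold ff; fun_prop

lemma h1_int {C k : ℝ} (hC : 0 < C) (hk : 0 < k) :
    IntegrableOn (fun t => |t * ff C k t|) (Iio 0) := by
  have h1 : IntegrableOn (fun t => (2 * C / k) * Real.exp ((k / 2) * t)) (Iic 0) :=
    (integrableOn_exp_mul_Iic (half_pos hk) 0).const_mul _
  have h2 : Continuous (fun t => |t * ff C k t|) := by unfold ff; fun_prop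
  refine Integrable.mono' (h1.mono_set Iio_subset_Iic_self)
    h2.aestronglyMeasurable ?_
  rw [ae_restrict_iff' measurableSet_Iio]
  refine Eventually.of_forall fun t ht => ?_
  have ht : t < 0 := ht
  rw [Real.norm_eq_abs, abs_abs, abs_mul, abs_of_neg ht, abs_of_pos (ff_pos hC k t)]
  unfold ff
  have h3 : -(k / 2 * t) ≤ Real.exp (-(k / 2 * t)) := by
    have := Real.add_one_le_exp (-(k / 2 * t)); linarith
  have h4 : Real.exp (k * t) = Real.exp (k / 2 * t) * Real.exp (k / 2 * t) := by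
    rw [← Real.exp_add]; congr 1; ring
  have h5 : Real.exp (-(k / 2 * t)) * Real.exp (k / 2 * t) = 1 := by
    rw [← Real.exp_add]; simp
  have h6 : -t * Real.exp (k / 2 * t) ≤ 2 / k := by
    have h7 : -(k / 2 * t) * Real.exp (k / 2 * t) ≤ 1 := by
      rw [← h5]; exact mul_le_mul_of_nonneg_right h3 (Real.exp_pos _).le
    rw [le_div_iff₀ hk]
    nlinarith
  rw [h4]
  calc -t * (C * (Real.exp (k / 2 * t) * Real.exp (k / 2 * t)))
      = (-t * Real.exp (k / 2 * t)) * (C * Real.exp (k / 2 * t)) := by ring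
    _ ≤ (2 / k) * (C * Real.exp (k / 2 * t)) :=
        mul_le_mul_of_nonneg_right h6 (mul_nonneg hC.le (Real.exp_pos _).le)
    _ = 2 * C / k * Real.exp (k / 2 * t) := by ring

lemma tendsto_ff {C k : ℝ} (hC : 0 < C) (hk : 0 < k) : Tendsto (ff C k) atTop atTop := by
  unfold ff
  exact (Real.tendsto_exp_atTop.comp (tendsto_id.const_mul_atTop hk)).const_mul_atTop hC

lemma fg_cont (C k M : ℝ) : Continuous (fun t => ff C k t * gg (-M * t)) := by
  unfold ff
  have := continuous_gg
  fun_prop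

lemma int_of_gt {C k M : ℝ} (hC : 0 < C) (hk : 0 < k) (h : k < M) :
    IntegrableOn (fun t => ff C k t * gg (-M * t)) (Ioi 0) := by
  have h1 : IntegrableOn (fun t => C * Real.exp (-(M - k) * t)) (Ioi 0) :=
    (exp_neg_integrableOn_Ioi 0 (sub_pos.2 h)).const_mul C
  refine Integrable.mono' h1 (fg_cont C k M).aestronglyMeasurable ?_
  rw [ae_restrict_iff' measurableSet_Ioi]
  refine Eventually.of_forall fun t ht => ?_
  have ht : 0 < t := ht
  have hM : -M * t ≤ 0 := by nlinarith
  rw [Real.norm_eq_abs, abs_of_nonneg (mul_nonneg (ff_pos hC k t).le (gg_nonneg hM))]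
  calc ff C k t * gg (-M * t) ≤ ff C k t * Real.exp (-M * t) :=
        mul_le_mul_of_nonneg_left (gg_le_exp hM) (ff_pos hC k t).le
    _ = C * Real.exp (-(M - k) * t) := by
        unfold ff
        rw [mul_assoc, ← Real.exp_add]
        congr 2
        ring

lemma not_int_of_le {C k M : ℝ} (hC : 0 < C) (hk : 0 < k) (hM : 0 < M) (h : M ≤ k) :
    ¬ IntegrableOn (fun t => ff C k t * gg (-M * t)) (Ioi 0) := by
  intro hi
  have h1 : IntegrableOn (fun t => ff C k t * gg (-M * t)) (Ioi (1 / M)) :=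
    hi.mono_set (Ioi_subset_Ioi (by positivity))
  have h2 : IntegrableOn (fun _ : ℝ => C) (Ioi (1 / M)) := by
    refine Integrable.mono' h1 aestronglyMeasurable_const ?_
    rw [ae_restrict_iff' measurableSet_Ioi]
    refine Eventually.of_forall fun t ht => ?_
    have ht : 1 / M < t := ht
    have ht0 : 0 < t := lt_trans (by positivity) ht
    have h3 : -M * t ≤ -1 := by
      rw [div_lt_iff₀ hM] at ht
      linarith
    rw [gg_of_le h3, Real.norm_eq_abs, abs_of_pos hC]
    unfold ff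
    rw [mul_assoc, ← Real.exp_add]
    have : 1 ≤ Real.exp (k * t + -M * t) := by
      rw [Real.one_le_exp_iff]
      nlinarith
    nlinarith
  rw [integrableOn_const_iff] at h2
  rcases h2 with h2 | h2
  · exact hC.ne' (by simpa using h2)
  · simp at h2

lemma sInf_eq {C k : ℝ} (hC : 0 < C) (hk : 0 < k) :
    sInf {M : ℝ | 0 < M ∧ IntegrableOn (fun t => ff C k t * gg (-M * t)) (Ioi 0)} = k := by
  have : {M : ℝ | 0 < M ∧ IntegrableOn (fun t => ff C k t * gg (-M * t)) (Ioi 0)} = Ioi k := by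
    ext M
    simp only [mem_setOf_eq, mem_Ioi]
    constructor
    · rintro ⟨h1, h2⟩
      by_contra h3
      exact not_int_of_le hC hk h1 (not_lt.1 h3) h2
    · intro h
      exact ⟨hk.trans h, int_of_gt hC hk h⟩
  rw [this, csInf_Ioi]

lemma gg_intOn (u : ℝ) (hu : u ≤ 0) : IntegrableOn gg (Iic u) := by
  refine Integrable.mono' (integrableOn_exp_Iic u) continuous_gg.aestronglyMeasurable ?_
  rw [ae_restrict_iff' measurableSet_Iic]
  refine Eventually.of_forall fun t ht => ?_
  have ht : t ≤ 0 := le_trans ht hu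
  rw [Real.norm_eq_abs, abs_of_nonneg (gg_nonneg ht)]
  exact gg_le_exp ht

lemma gg'_abs_le {t : ℝ} (ht : t ≤ 0) : |gg' t| ≤ 5 * Real.exp t := by
  unfold gg'
  rw [abs_mul, abs_of_pos (Real.exp_pos _)]
  have h0 : 0 ≤ max (t + 1) 0 := le_max_right _ _
  have h1 : max (t + 1) 0 ≤ 1 := max_le (by linarith) (by norm_num)
  have h2 : sg t = (max (t + 1) 0) ^ 2 := rfl
  have h3 : Real.exp (t - sg t) ≤ Real.exp t := Real.exp_le_exp.2 (by linarith [sg_nonneg t])
  set s := max (t + 1) 0
  have h4 : |(1 - sg t) * (1 - 2 * s) - 2 * s| ≤ 5 := by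
    rw [h2, abs_le]
    constructor <;> nlinarith [mul_nonneg h0 h0, mul_nonneg h0 (sub_nonneg.2 h1),
      mul_nonneg (mul_nonneg h0 h0) (sub_nonneg.2 h1)]
  exact mul_le_mul h4 h3 (Real.exp_pos _).le (by norm_num)

lemma gg'_intOn (u : ℝ) (hu : u ≤ 0) : IntegrableOn gg' (Iic u) := by
  refine Integrable.mono' ((integrableOn_exp_Iic u).const_mul 5)
    continuous_gg'.aestronglyMeasurable ?_
  rw [ae_restrict_iff' measurableSet_Iic]
  refine Eventually.of_forall fun t ht => ?_
  exact gg'_abs_le (le_trans ht hu)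

lemma G0_of_le {u : ℝ} (hu : u ≤ -1) : ∫ s in Iic u, gg s = Real.exp u := by
  rw [← integral_exp_Iic]
  exact setIntegral_congr_fun measurableSet_Iic fun s hs => gg_of_le (le_trans hs hu)

lemma gg_le_G0 {u : ℝ} (hu : u ≤ 0) : gg u ≤ ∫ s in Iic u, gg s := by
  have h1 : ∫ s in Iic u, gg' s = gg u - 0 := by
    refine integral_Iic_of_hasDerivAt_of_tendsto' (fun x _ => hasDerivAt_gg x)
      (gg'_intOn u hu) ?_
    refine (Real.tendsto_exp_atBot).congr' ?_
    filter_upwards [eventually_le_atBot (-1 : ℝ)] with x hx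
    exact (gg_of_le hx).symm
  rw [sub_zero] at h1
  rw [← h1]
  exact setIntegral_mono_on (gg'_intOn u hu) (gg_intOn u hu) measurableSet_Iic
    fun s hs => gg'_le_gg (le_trans hs hu)

lemma one_le_G1 {u : ℝ} (hu : u < 0) : 1 ≤ (∫ s in Iic u, gg s) / gg u := by
  rw [le_div_iff₀ (gg_pos hu), one_mul]
  exact gg_le_G0 hu.le

lemma tendsto_G1 : Tendsto (fun u => (∫ s in Iic u, gg s) / gg u) atBot (𝓝 1) := by
  refine tendsto_const_nhds.congr' ?_
  filter_upwards [eventually_le_atBot (-1 : ℝ)] with u hu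
  rw [G0_of_le hu, gg_of_le hu, div_self (Real.exp_pos _).ne']

end Pool.Agent.Y309.RS
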