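import Pool.Agent.Y309.RS.Sol

set_option autoImplicit false
open MeasureTheory Filter Topology Set Laplacian InnerProductSpace

namespace Pool.Agent.Y309.RS

open Pool.Agent.H314.Dir Pool.Agent.H314.CS

/-- point of the plane with a given complex coordinate -/
noncomputable def ct (z : ℂ) : Eu 2 := !₂[z.re, z.im]

@[simp] lemma cz_ct (z : ℂ) : cz (ct z) = z := by
  apply Complex.ext <;> simp [cz, ct]

lemma ct_cz (x : Eu 2) : ct (cz x) = x := by
  ext i
  fin_cases i <;> simp [cz, ct]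

lemma cz_sub (x y : Eu 2) : cz (x - y) = cz x - cz y := by
  apply Complex.ext <;> simp [cz]

lemma cz_zero : cz 0 = 0 := by
  apply Complex.ext <;> simp [cz]

lemma norm_ct (z : ℂ) : ‖ct z‖ = ‖z‖ := by rw [← norm_cz, cz_ct]

lemma norm_ct_sub (z : ℂ) (a : Eu 2) : ‖ct z - a‖ = ‖z - cz a‖ := by
  rw [← norm_cz, cz_sub, cz_ct]

lemma W_le (m : ℕ) (x : Eu 2) : W m x ≤ -1 - Real.log 2 := by
  unfold W
  have h := Q_nonneg m x
  have : 0 ≤ Real.log (1 + Q m x) := Real.log_nonneg (by linarith)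
  linarith

lemma W_eq_iff {m : ℕ} {x : Eu 2} : W m x = -1 - Real.log 2 ↔ (cz x) ^ m = 1 := by
  unfold W
  have h := Q_nonneg m x
  constructor
  · intro h1
    have h2 : Real.log (1 + Q m x) = 0 := by linarith
    have h3 : 1 + Q m x = 1 := Real.eq_one_of_pos_of_log_eq_zero (by linarith) h2
    have h4 : Q m x = 0 := by linarith
    unfold Q at h4
    rw [Complex.normSq_eq_zero] at h4
    exact sub_eq_zero.1 h4
  · intro h1
    have h4 : Q m x = 0 := by
      unfold Q
      rw [h1]; simp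
    rw [h4]; simp

lemma ct_ne {z : ℂ} (hz : z ≠ 0) : ct z ≠ 0 := by
  intro h
  apply hz
  have := congrArg cz h
  rwa [cz_ct, cz_zero] at this

/-- the solution is not radial about any point -/
theorem not_radial {N : ℝ} (hN : 0 ≤ N) {m : ℕ} (hm : 2 ≤ m) (a : Eu 2) :
    ¬ ∃ Φ : ℝ → ℝ, ∀ x, x ≠ 0 → U N m x = Φ ‖x - a‖ := by
  rintro ⟨Φ, hΦ⟩
  have hm0 : (m : ℂ) ≠ 0 := by
    have : m ≠ 0 := by omega
    exact_mod_cast this
  rcases eq_or_ne a 0 with ha | ha
  · subst ha
    set ω : ℂ := Complex.exp (Real.pi * Complex.I / m) with hω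
    have hωm : ω ^ m = -1 := by
      rw [hω, ← Complex.exp_nat_mul]
      have : (m : ℂ) * (Real.pi * Complex.I / m) = Real.pi * Complex.I := by field_simp
      rw [this, Complex.exp_pi_mul_I]
    have hω1 : ‖ω‖ = 1 := by
      have h1 : ‖ω‖ ^ m = 1 := by rw [← norm_pow, hωm]; simp
      exact (pow_eq_one_iff_of_nonneg (norm_nonneg _) (by omega)).1 h1
    have hω0 : ω ≠ 0 := Complex.exp_ne_zero _
    have h1 := hΦ (ct 1) (ct_ne one_ne_zero)
    have h2 := hΦ (ct ω) (ct_ne hω0)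
    have e1 : ‖ct 1 - 0‖ = 1 := by rw [sub_zero, norm_ct]; simp
    have e2 : ‖ct ω - 0‖ = 1 := by rw [sub_zero, norm_ct, hω1]
    rw [e1] at h1
    rw [e2, ← h1] at h2
    unfold U at h2
    rw [norm_ct, norm_ct, hω1, norm_one, add_right_inj] at h2
    have h3 : W m (ct 1) = -1 - Real.log 2 := W_eq_iff.2 (by rw [cz_ct, one_pow])
    rw [h3] at h2
    have h4 := W_eq_iff.1 h2
    rw [cz_ct, hωm] at h4
    norm_num at h4
  · have hα : cz a ≠ 0 := by
      intro h
      apply ha
      rw [← ct_cz a, h]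
      ext i; fin_cases i <;> simp [ct]
    rcases hN.lt_or_eq with hN | hN
    · -- singular case: let `x → 0` on the circle about `a` through the origin
      have hcont : Tendsto (fun θ : ℝ => ‖cz a * (1 - Complex.exp (θ * Complex.I))‖) (𝓝[>] 0)
          (𝓝 0) := by
        have hc : Continuous (fun θ : ℝ => ‖cz a * (1 - Complex.exp (θ * Complex.I))‖) := by
          fun_prop
        have := hc.tendsto 0
        simp only [Complex.ofReal_zero, zero_mul, Complex.exp_zero, sub_self, mul_zero,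
          norm_zero] at this
        exact this.mono_left nhdsWithin_le_nhds
      set ε : ℝ := Real.exp ((Φ ‖a‖ + 1 + Real.log 2) / (2 * N)) with hε
      have h1 : ∀ᶠ θ : ℝ in 𝓝[>] 0, ‖cz a * (1 - Complex.exp (θ * Complex.I))‖ < ε :=
        hcont.eventually (gt_mem_nhds (Real.exp_pos _))
      have h2 : ∀ᶠ θ : ℝ in 𝓝[>] 0, θ ∈ Ioo (0 : ℝ) 1 := Ioo_mem_nhdsGT one_pos
      obtain ⟨θ, hθ1, hθ2⟩ := (h1.and h2).exists
      set z : ℂ := cz a * (1 - Complex.exp (θ * Complex.I)) with hz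
      have hz0 : z ≠ 0 := by
        refine mul_ne_zero hα ?_
        intro h
        have h3 : Complex.exp (θ * Complex.I) = 1 := (sub_eq_zero.1 h).symm
        have h4 : (Complex.exp (θ * Complex.I)).im = 0 := by rw [h3]; simp
        rw [Complex.exp_ofReal_mul_I_im] at h4
        have : 0 < Real.sin θ := Real.sin_pos_of_pos_of_lt_pi hθ2.1 (by
          have := Real.pi_gt_three; linarith [hθ2.2])
        linarith
      have h3 := hΦ (ct z) (ct_ne hz0)
      have h4 : ‖ct z - a‖ = ‖a‖ := by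
        rw [norm_ct_sub, hz]
        have : cz a * (1 - Complex.exp (θ * Complex.I)) - cz a =
            -(cz a * Complex.exp (θ * Complex.I)) := by ring
        rw [this, norm_neg, norm_mul, Complex.norm_exp_ofReal_mul_I, mul_one, norm_cz]
      rw [h4] at h3
      unfold U at h3
      have h5 := W_le m (ct z)
      have h6 : Φ ‖a‖ + 1 + Real.log 2 ≤ 2 * N * Real.log ‖ct z‖ := by linarith
      have h7 : (Φ ‖a‖ + 1 + Real.log 2) / (2 * N) ≤ Real.log ‖z‖ := by
        rw [norm_ct] at h6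
        rw [div_le_iff₀ (by positivity)]
        linarith
      have h8 : ε ≤ ‖z‖ := by
        rw [hε, ← Real.le_log_iff_exp_le (norm_pos_iff.2 hz0)]
        exact h7
      linarith
    · subst hN
      have key : ∀ ω : ℂ, ω ^ m = 1 → a = ct ω := by
        intro ω hω
        by_contra hne
        have hω0 : ω ≠ 0 := by
          rintro rfl
          rw [zero_pow (by omega)] at hω
          exact zero_ne_one hω
        have hr : 0 < ‖ct ω - a‖ := norm_pos_iff.2 (sub_ne_zero.2 fun h => hne h.symm)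
        have hW : W m (ct ω) = -1 - Real.log 2 := W_eq_iff.2 (by rw [cz_ct, hω])
        have hval : Φ ‖ct ω - a‖ = -1 - Real.log 2 := by
          rw [← hΦ _ (ct_ne hω0), U, hW]; ring
        have hsub : Metric.sphere a ‖ct ω - a‖ ⊆ insert 0 (ct '' {z : ℂ | z ^ m = 1}) := by
          intro x hx
          rw [mem_sphere_iff_norm] at hx
          by_cases hx0 : x = 0
          · exact Or.inl hx0
          · right
            refine ⟨cz x, ?_, ct_cz x⟩
            have h1 := hΦ x hx0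
            rw [hx, hval, U] at h1
            exact W_eq_iff.1 (by linarith)
        have hfin : (insert (0 : Eu 2) (ct '' {z : ℂ | z ^ m = 1})).Finite := by
          refine Set.Finite.insert _ (Set.Finite.image _ ?_)
          have : {z : ℂ | z ^ m = 1} ⊆ ((Polynomial.nthRoots m (1 : ℂ)).toFinset : Set ℂ) := by
            intro z hz
            simp only [Finset.mem_coe, Multiset.mem_toFinset]
            exact (Polynomial.mem_nthRoots (by omega)).2 hz
          exact (Finset.finite_toSet _).subset this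
        have hconn : IsPreconnected (Metric.sphere a ‖ct ω - a‖) := by
          refine isPreconnected_sphere ?_ _ _
          rw [rank_eq_card_basis (EuclideanSpace.basisFun (Fin 2) ℝ).toBasis]
          simp
        have hnt : (Metric.sphere a ‖ct ω - a‖).Nontrivial := by
          refine ⟨ct ω, by simp, a - (ct ω - a), by simp [norm_sub_rev], ?_⟩
          intro h
          have h2 : (2 : ℝ) • (ct ω - a) = 0 := by
            rw [two_smul]
            nth_rewrite 1 [h]
            abel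
          have h3 : ct ω - a = 0 := by
            rcases smul_eq_zero.1 h2 with h | h
            · norm_num at h
            · exact h
          rw [h3] at hr
          simp at hr
        exact (hconn.infinite_of_nontrivial hnt) (hfin.subset hsub)
      have h1 := key 1 (one_pow m)
      set ω : ℂ := Complex.exp (2 * Real.pi * Complex.I / m) with hω
      have hprim : IsPrimitiveRoot ω m := Complex.isPrimitiveRoot_exp m (by omega)
      have h2 := key ω hprim.pow_eq_one
      have h3 : ω = 1 := by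
        have := congrArg cz (h1.symm.trans h2)
        rw [cz_ct, cz_ct] at this
        exact this.symm
      exact hprim.ne_one (by omega) h3

/-- the total mass is finite -/
lemma source_integrable {N : ℝ} (hN : 0 ≤ N) {m : ℕ} (hm2 : 2 ≤ m) (hm : N < m) :
    Integrable (fun x : Eu 2 => pp N m ‖x‖ * gg (U N m x)) := by
  have h1 : Continuous (fun x : Eu 2 => 8 * (m : ℝ) ^ 2 * (‖x‖ ^ 2) ^ (m - 1) / (1 + Q m x) ^ 2) := by
    have hQ := (contDiff_Q (n := 0) m).continuous
    refine Continuous.div (by fun_prop) (by fun_prop) ?_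
    intro x
    have := Q_nonneg m x
    positivity
  have h2 : Integrable (fun x : Eu 2 => (256 * (m : ℝ) ^ 2) * (1 + ‖x‖) ^ (-(3 : ℝ))) := by
    refine (integrable_one_add_norm ?_).const_mul _
    rw [finrank_euclideanSpace_fin]
    norm_num
  have h3 : Integrable (fun x : Eu 2 => 8 * (m : ℝ) ^ 2 * (‖x‖ ^ 2) ^ (m - 1) / (1 + Q m x) ^ 2) := by
    refine h2.mono' h1.aestronglyMeasurable (Eventually.of_forall fun x => ?_)
    have hQ := Q_nonneg m x
    have hx0 : 0 ≤ ‖x‖ := norm_nonneg x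
    rw [Real.norm_eq_abs, abs_of_nonneg (by positivity), Real.rpow_neg (by positivity)]
    have e3 : (1 + ‖x‖) ^ (3 : ℝ) = (1 + ‖x‖) ^ 3 := by
      rw [show (3 : ℝ) = ((3 : ℕ) : ℝ) by norm_num, Real.rpow_natCast]
    rw [e3, ← div_eq_mul_inv, div_le_div_iff₀ (by positivity) (by positivity)]
    rcases le_total ‖x‖ 1 with h | h
    · have a1 : (‖x‖ ^ 2) ^ (m - 1) ≤ 1 := pow_le_one₀ (by positivity) (by nlinarith)
      have a2 : (1 + ‖x‖) ^ 3 ≤ 2 ^ 3 := pow_le_pow_left₀ (by positivity) (by linarith) 3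
      have a3 : 1 ≤ (1 + Q m x) ^ 2 := one_le_pow₀ (by linarith)
      have a4 : (‖x‖ ^ 2) ^ (m - 1) * (1 + ‖x‖) ^ 3 ≤ 1 * 2 ^ 3 :=
        mul_le_mul a1 a2 (by positivity) (by norm_num)
      calc 8 * (m : ℝ) ^ 2 * (‖x‖ ^ 2) ^ (m - 1) * (1 + ‖x‖) ^ 3
          = 8 * (m : ℝ) ^ 2 * ((‖x‖ ^ 2) ^ (m - 1) * (1 + ‖x‖) ^ 3) := by ring
        _ ≤ 8 * (m : ℝ) ^ 2 * (1 * 2 ^ 3) := by gcongr
        _ ≤ 256 * (m : ℝ) ^ 2 * 1 := by nlinarith [sq_nonneg (m : ℝ)]
        _ ≤ 256 * (m : ℝ) ^ 2 * (1 + Q m x) ^ 2 := by gcongr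
    · have b1 := pow_le m x
      have b2 : (‖x‖ ^ (2 * m)) ^ 2 ≤ (2 * (1 + Q m x)) ^ 2 :=
        pow_le_pow_left₀ (by positivity) b1 2
      have b3 : (1 + ‖x‖) ^ 3 ≤ (2 * ‖x‖) ^ 3 := pow_le_pow_left₀ (by positivity) (by linarith) 3
      have b4 : (‖x‖ ^ 2) ^ (m - 1) * (2 * ‖x‖) ^ 3 ≤ 8 * (‖x‖ ^ (2 * m)) ^ 2 := by
        have c1 : (‖x‖ ^ 2) ^ (m - 1) * (2 * ‖x‖) ^ 3 = 8 * ‖x‖ ^ (2 * (m - 1) + 3) := by
          rw [pow_add, pow_mul]; ring
        rw [c1, ← pow_mul]
        have c2 : ‖x‖ ^ (2 * (m - 1) + 3) ≤ ‖x‖ ^ (2 * m * 2) :=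
          pow_le_pow_right₀ h (by omega)
        linarith
      calc 8 * (m : ℝ) ^ 2 * (‖x‖ ^ 2) ^ (m - 1) * (1 + ‖x‖) ^ 3
          ≤ 8 * (m : ℝ) ^ 2 * (‖x‖ ^ 2) ^ (m - 1) * (2 * ‖x‖) ^ 3 := by gcongr
        _ = 8 * (m : ℝ) ^ 2 * ((‖x‖ ^ 2) ^ (m - 1) * (2 * ‖x‖) ^ 3) := by ring
        _ ≤ 8 * (m : ℝ) ^ 2 * (8 * (‖x‖ ^ (2 * m)) ^ 2) := by gcongr
        _ ≤ 8 * (m : ℝ) ^ 2 * (8 * (2 * (1 + Q m x)) ^ 2) := by gcongr
        _ = 256 * (m : ℝ) ^ 2 * (1 + Q m x) ^ 2 := by ring
  refine h3.congr ?_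
  filter_upwards [ae_ne] with x hx
  exact (source_eq hN (by omega) hm hx).symm

end Pool.Agent.Y309.RS
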