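import Pool.Agent.Y309.RS.Hyp
import Pool.Agent.H314.CS.Holo
import Pool.Agent.H314.CS.Dist

set_option autoImplicit false
open MeasureTheory Filter Topology Set Laplacian InnerProductSpace

namespace Pool.Agent.Y309.RS

open Pool.Agent.H314.Dir Pool.Agent.H314.CS

theorem laplacian_eq_lap (f : Eu 2 → ℝ) (x : Eu 2) : Δ f x = lap f x := by
  rw [laplacian_eq_iteratedFDeriv_orthonormalBasis f (EuclideanSpace.basisFun (Fin 2) ℝ)]
  unfold lap
  refine Finset.sum_congr rfl fun i _ => ?_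
  congr 1
  funext j
  fin_cases j <;> simp

theorem logn_smooth {n : WithTop ℕ∞} {x : Eu 2} (hx : x ≠ 0) :
    ContDiffAt ℝ n (fun y : Eu 2 => Real.log ‖y‖) x :=
  (contDiffAt_id.norm ℝ hx).log (norm_ne_zero_iff.2 hx)

lemma normSq_cz (x : Eu 2) : Complex.normSq (cz x) = ‖x‖ ^ 2 := by
  rw [EuclideanSpace.real_norm_sq_eq, Fin.sum_univ_two, Complex.normSq_apply, cz]
  ring

lemma norm_cz (x : Eu 2) : ‖cz x‖ = ‖x‖ := by
  have h := normSq_cz x
  rw [Complex.normSq_eq_norm_sq] at h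
  exact (sq_eq_sq₀ (norm_nonneg _) (norm_nonneg _)).1 h

lemma contDiff_cz {n : WithTop ℕ∞} : ContDiff ℝ n (fun x : Eu 2 => cz x) := by
  have h0 : ∀ i : Fin 2, ContDiff ℝ n (fun x : Eu 2 => x i) := fun i =>
    (EuclideanSpace.proj (𝕜 := ℝ) i : Eu 2 →L[ℝ] ℝ).contDiff
  have e : (fun x : Eu 2 => cz x) = fun x : Eu 2 => Complex.ofRealCLM (x 0) +
      Complex.ofRealCLM (x 1) * Complex.I := by
    funext x
    apply Complex.ext <;> simp [cz]
  rw [e]
  exact (Complex.ofRealCLM.contDiff.comp (h0 0)).add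
    ((Complex.ofRealCLM.contDiff.comp (h0 1)).mul contDiff_const)

/-- `|z^m - 1|²` -/
noncomputable def Q (m : ℕ) (x : Eu 2) : ℝ := Complex.normSq ((cz x) ^ m - 1)

lemma Q_nonneg (m : ℕ) (x : Eu 2) : 0 ≤ Q m x := Complex.normSq_nonneg _

lemma contDiff_Q {n : WithTop ℕ∞} (m : ℕ) : ContDiff ℝ n (Q m) := by
  have h1 : ContDiff ℝ n (fun x : Eu 2 => (cz x) ^ m - 1) := (contDiff_cz.pow m).sub contDiff_const
  have hre : ContDiff ℝ n (fun x : Eu 2 => ((cz x) ^ m - 1).re) := Complex.reCLM.contDiff.comp h1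
  have him : ContDiff ℝ n (fun x : Eu 2 => ((cz x) ^ m - 1).im) := Complex.imCLM.contDiff.comp h1
  have e : Q m = fun x : Eu 2 => ((cz x) ^ m - 1).re * ((cz x) ^ m - 1).re +
      ((cz x) ^ m - 1).im * ((cz x) ^ m - 1).im := by
    funext x
    rw [Q, Complex.normSq_apply]
  rw [e]
  exact (hre.mul hre).add (him.mul him)

/-- smooth part of the solution -/
noncomputable def W (m : ℕ) (x : Eu 2) : ℝ := -1 - Real.log 2 + -2 * Real.log (1 + Q m x)

lemma contDiff_W {n : WithTop ℕ∞} (m : ℕ) : ContDiff ℝ n (W m) := by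
  unfold W
  refine contDiff_const.add (contDiff_const.mul ((contDiff_const.add (contDiff_Q m)).log ?_))
  intro x
  have := Q_nonneg m x
  positivity

lemma lap_W (m : ℕ) (x : Eu 2) :
    Δ (W m) x = -(8 * m ^ 2 * (‖x‖ ^ 2) ^ (m - 1) / (1 + Q m x) ^ 2) := by
  rw [laplacian_eq_lap]
  have hF : ∀ z : ℂ, HasDerivAt (fun z : ℂ => z ^ m - 1) ((fun z : ℂ => m * z ^ (m - 1)) z) z := by
    intro z
    have := (hasDerivAt_pow m z).sub_const 1
    simpa using this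
  have hF' : ∀ z : ℂ, HasDerivAt (fun z : ℂ => m * z ^ (m - 1))
      ((fun z : ℂ => (m : ℂ) * (((m - 1 : ℕ) : ℂ) * z ^ (m - 1 - 1))) z) z := by
    intro z
    exact (hasDerivAt_pow (m - 1) z).const_mul (m : ℂ)
  have hQ0 := Q_nonneg m x
  have h := lap_holo hF hF' (g := fun r : ℝ => -1 - Real.log 2 + -2 * Real.log (1 + r))
    (g' := fun r : ℝ => -2 * (1 + r)⁻¹) (g'' := fun r : ℝ => 2 * ((1 + r)⁻¹) ^ 2) x ?_ ?_ ?_
  · have e1 : (W m) = fun y : Eu 2 => -1 - Real.log 2 +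
        -2 * Real.log (1 + Complex.normSq ((cz y) ^ m - 1)) := rfl
    rw [e1, h]
    have e2 : Complex.normSq ((m : ℂ) * cz x ^ (m - 1)) = m ^ 2 * (‖x‖ ^ 2) ^ (m - 1) := by
      rw [map_mul, map_pow, normSq_cz, Complex.normSq_natCast]
      ring
    have e3 : Complex.normSq ((cz x) ^ m - 1) = Q m x := rfl
    simp only [e3, e2]
    have h1 : 1 + Q m x ≠ 0 := by positivity
    field_simp
    ring
  · have h1 : ∀ᶠ r in 𝓝 (Complex.normSq ((cz x) ^ m - 1)), 0 < 1 + r := by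
      have hc : Continuous fun r : ℝ => 1 + r := by fun_prop
      have h2 : 0 < 1 + Complex.normSq ((cz x) ^ m - 1) := by
        have : 0 ≤ Complex.normSq ((cz x) ^ m - 1) := Complex.normSq_nonneg _
        linarith
      exact hc.continuousAt.eventually (lt_mem_nhds h2)
    filter_upwards [h1] with r hr
    have h3 : HasDerivAt (fun r : ℝ => 1 + r) 1 r := (hasDerivAt_id r).const_add 1
    have h4 := ((h3.log hr.ne').const_mul (-2)).const_add (-1 - Real.log 2)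
    refine h4.congr_deriv ?_
    simp
  · have h2 : 1 + Complex.normSq ((cz x) ^ m - 1) ≠ 0 := by
      have : 0 ≤ Complex.normSq ((cz x) ^ m - 1) := Complex.normSq_nonneg _
      linarith
    have h3 : HasDerivAt (fun r : ℝ => 1 + r) 1 (Complex.normSq ((cz x) ^ m - 1)) :=
      (hasDerivAt_id _).const_add 1
    have h4 := (h3.inv h2).const_mul (-2)
    refine h4.congr_deriv ?_
    field_simp
  · exact (contDiff_W (n := 2) m).contDiffAt

/-- the solution -/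
noncomputable def U (N : ℝ) (m : ℕ) (x : Eu 2) : ℝ := 2 * N * Real.log ‖x‖ + W m x

lemma pow_le (m : ℕ) (x : Eu 2) : ‖x‖ ^ (2 * m) ≤ 2 * (1 + Q m x) := by
  have h1 : ‖x‖ ^ m ≤ 1 + ‖(cz x) ^ m - 1‖ := by
    have h2 : (cz x) ^ m = 1 + ((cz x) ^ m - 1) := by ring
    calc ‖x‖ ^ m = ‖(cz x) ^ m‖ := by rw [norm_pow, norm_cz]
      _ = ‖1 + ((cz x) ^ m - 1)‖ := by rw [← h2]
      _ ≤ ‖(1 : ℂ)‖ + ‖(cz x) ^ m - 1‖ := norm_add_le _ _
      _ = 1 + ‖(cz x) ^ m - 1‖ := by simp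
  have h3 : Q m x = ‖(cz x) ^ m - 1‖ ^ 2 := Complex.normSq_eq_norm_sq _
  rw [h3, mul_comm 2 m, pow_mul]
  have h4 : 0 ≤ ‖x‖ ^ m := by positivity
  nlinarith [norm_nonneg ((cz x) ^ m - 1), sq_nonneg (‖(cz x) ^ m - 1‖ - 1)]

lemma U_le {N : ℝ} (hN : 0 ≤ N) {m : ℕ} (hm : N < m) {x : Eu 2} (hx : x ≠ 0) : U N m x ≤ -1 := by
  unfold U W
  have hx0 : 0 < ‖x‖ := norm_pos_iff.2 hx
  have hQ := Q_nonneg m x
  have h1 : 2 * N * Real.log ‖x‖ ≤ Real.log 2 + 2 * Real.log (1 + Q m x) := by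
    have hl : 0 ≤ Real.log (1 + Q m x) := Real.log_nonneg (by linarith)
    have hl2 : 0 ≤ Real.log 2 := Real.log_nonneg (by norm_num)
    rcases le_total ‖x‖ 1 with h | h
    · have : Real.log ‖x‖ ≤ 0 := Real.log_nonpos hx0.le h
      nlinarith
    · have h2 : 0 ≤ Real.log ‖x‖ := Real.log_nonneg h
      have h3 : Real.log (‖x‖ ^ (2 * m)) ≤ Real.log (2 * (1 + Q m x)) :=
        Real.log_le_log (by positivity) (pow_le m x)
      rw [Real.log_pow, Real.log_mul (by norm_num) (by positivity)] at h3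
      push_cast at h3
      nlinarith
  linarith

lemma exp_U (N : ℝ) (m : ℕ) {x : Eu 2} (hx : x ≠ 0) :
    Real.exp (U N m x) = Real.exp (-1) / 2 * ‖x‖ ^ (2 * N) / (1 + Q m x) ^ 2 := by
  unfold U W
  have hx0 : 0 < ‖x‖ := norm_pos_iff.2 hx
  have hQ := Q_nonneg m x
  have h1 : 2 * N * Real.log ‖x‖ + (-1 - Real.log 2 + -2 * Real.log (1 + Q m x)) =
      Real.log ‖x‖ * (2 * N) + (-1) - Real.log 2 - 2 * Real.log (1 + Q m x) := by ring
  have h2 : 2 * Real.log (1 + Q m x) = Real.log ((1 + Q m x) ^ 2) := by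
    rw [Real.log_pow]; push_cast; ring
  rw [h1, h2, Real.exp_sub, Real.exp_sub, Real.exp_add,
    Real.exp_log (show (0 : ℝ) < (1 + Q m x) ^ 2 by positivity),
    Real.exp_log (show (0 : ℝ) < 2 by norm_num), ← Real.rpow_def_of_pos hx0]
  ring

/-- the constant in front of the weight -/
noncomputable def CC (m : ℕ) : ℝ := 16 * Real.exp 1 * m ^ 2

/-- the weight `p` -/
noncomputable def pp (N : ℝ) (m : ℕ) (r : ℝ) : ℝ := CC m * r ^ (2 * (m - N) - 2)

lemma source_eq {N : ℝ} (hN : 0 ≤ N) {m : ℕ} (hm1 : 1 ≤ m) (hm : N < m) {x : Eu 2} (hx : x ≠ 0) :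
    pp N m ‖x‖ * gg (U N m x) = 8 * m ^ 2 * (‖x‖ ^ 2) ^ (m - 1) / (1 + Q m x) ^ 2 := by
  rw [gg_of_le (U_le hN hm hx), exp_U N m hx]
  unfold pp CC
  have hx0 : 0 < ‖x‖ := norm_pos_iff.2 hx
  have h1 : ‖x‖ ^ (2 * ((m : ℝ) - N) - 2) * ‖x‖ ^ (2 * N) = (‖x‖ ^ 2) ^ (m - 1) := by
    rw [← Real.rpow_add hx0, ← pow_mul, ← Real.rpow_natCast]
    congr 1
    push_cast [Nat.cast_sub hm1]
    ring
  have h2 : Real.exp 1 * Real.exp (-1) = 1 := by rw [← Real.exp_add]; simp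
  calc 16 * Real.exp 1 * m ^ 2 * ‖x‖ ^ (2 * ((m : ℝ) - N) - 2) *
        (Real.exp (-1) / 2 * ‖x‖ ^ (2 * N) / (1 + Q m x) ^ 2)
      = 8 * m ^ 2 * (Real.exp 1 * Real.exp (-1)) *
        (‖x‖ ^ (2 * ((m : ℝ) - N) - 2) * ‖x‖ ^ (2 * N)) / (1 + Q m x) ^ 2 := by ring
    _ = _ := by rw [h1, h2]; ring

lemma ae_ne : ∀ᵐ x : Eu 2, x ≠ 0 := by
  rw [ae_iff]; simp

lemma U_smooth (N : ℝ) (m : ℕ) {n : WithTop ℕ∞} : ContDiffOn ℝ n (U N m) {x | x ≠ 0} := by
  intro x hx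
  exact ((contDiffAt_const.mul (logn_smooth hx)).add (contDiff_W m).contDiffAt).contDiffWithinAt

lemma U_locInt (N : ℝ) (m : ℕ) : LocallyIntegrable (U N m) := by
  unfold U
  exact (LL.locInt_log0.smul (2 * N)).add (contDiff_W (n := 0) m).continuous.locallyIntegrable

lemma source_locInt {N : ℝ} (hN : 0 ≤ N) {m : ℕ} (hm1 : 1 ≤ m) (hm : N < m) :
    LocallyIntegrable (fun x : Eu 2 => pp N m ‖x‖ * gg (U N m x)) := by
  have h1 : Continuous (fun x : Eu 2 => 8 * (m : ℝ) ^ 2 * (‖x‖ ^ 2) ^ (m - 1) / (1 + Q m x) ^ 2) := by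
    have hQ := (contDiff_Q (n := 0) m).continuous
    refine Continuous.div (by fun_prop) (by fun_prop) ?_
    intro x
    have := Q_nonneg m x
    positivity
  refine h1.locallyIntegrable.congr ?_
  filter_upwards [ae_ne] with x hx
  exact (source_eq hN hm1 hm hx).symm

lemma dist_eq {N : ℝ} (hN : 0 ≤ N) {m : ℕ} (hm1 : 1 ≤ m) (hm : N < m) {φ : Eu 2 → ℝ}
    (hφ : ContDiff ℝ 2 φ) (hc : HasCompactSupport φ) :
    (∫ x, U N m x * Δ φ x) + ∫ x, pp N m ‖x‖ * gg (U N m x) * φ x = 4 * Real.pi * N * φ 0 := by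
  have h1 := dist_identity (N := 1) (fun _ => (0 : Eu 2)) (fun _ => 2 * N) (W m) φ
    (contDiff_W m) hφ hc
  simp only [Finset.univ_unique, Fin.default_eq_zero, Finset.sum_const, Finset.card_singleton,
    one_smul, sub_zero] at h1
  have h2 : ∫ x, pp N m ‖x‖ * gg (U N m x) * φ x = - ∫ x, Δ (W m) x * φ x := by
    rw [← integral_neg]
    refine integral_congr_ae ?_
    filter_upwards [ae_ne] with x hx
    rw [source_eq hN hm1 hm hx, lap_W]
    ring
  have h3 : ∫ x, U N m x * Δ φ x = ∫ x, (2 * N * Real.log ‖x‖ + W m x) * Δ φ x := rfl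
  rw [h3, h1, h2]
  ring

end Pool.Agent.Y309.RS
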